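import Mathlib
import Pool.Agent.X26.AN.ShG

/-!
# Palindromes plus a shift: the expected number of primes for almost all shifts

Let `P` be the set of the base-`b` palindromes with `2 N + 1` digits and given leading and middle digit
(`b ^ (N - 1)` numbers). The conjecture is about the primes in `P`. We show that for almost all integers `h` the
asymptotic formula which is expected for the number of primes among `n + h`, `n ∈ P`, is true (more generally among
`κ n + h` for fixed `κ ≠ 0`). In particular (`κ = -1`) for every base `b ≥ 3` almost all integers are sums of a prime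
and a palindrome, with the number of representations of the right order of magnitude.

Proof: the characteristic function of a random palindrome is small at all frequencies with many digits
(`Pool.Agent.TH872.Mir`, starting files), and the function `Λ - λ_z` (`λ_z`: sieve model) has a small `L²` norm over the
other frequencies (`Pool.Agent.W93.TD.bad_sq`, starting files). By Parseval's identity the mean of `Λ(κ n + h)` over `P`
is the mean of `λ_z(κ n + h)` for almost all `h`, and this is given by the fundamental lemma for palindromes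
(`Pool.Agent.X37.PL.fund_pal`).
-/

set_option autoImplicit false

namespace Pool.Agent.Results.MP_e8d2ce_nt.AlmostAllShifts

open Finset

/-- the base-`b` palindromes with `2 N + 1` digits, leading digit `d` and middle digit `e` -/
def Pal (b N d e : ℕ) : Finset ℕ := (range (b ^ (2 * N + 1))).filter (fun n =>
  (Nat.digits b n).reverse = Nat.digits b n ∧ n / b ^ (2 * N) = d ∧ n / b ^ N % b = e)

/-- the number of the palindromes `n ∈ Pal b N d e` for which `κ n + h` is a prime -/
def primeCount (b N d e : ℕ) (κ h : ℤ) : ℕ := ((Pal b N d e).filter (fun n : ℕ => (h + κ * (n : ℤ)).toNat.Prime)).card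

/-- the expected number: `b ^ (N - 1)` palindromes, each with probability `C / log (b ^ (2 N))`, where `C` is the product
of `(1 - 1 / p) ^ (-1)` over the primes `p` dividing `2 b κ` -/
noncomputable def expected (b N : ℕ) (κ : ℤ) : ℝ :=
  (∏ p ∈ (2 * b * κ.natAbs).primeFactors, (1 - 1 / (p : ℝ))⁻¹) * (b : ℝ) ^ (N - 1) / (2 * N * Real.log b)

/-- all the numbers `κ n + h`, `n ∈ Pal b N d e`, are positive, and no prime divides all of them -/
def Admissible (b N d e : ℕ) (κ h : ℤ) : Prop :=
  (∀ n ∈ Pal b N d e, 1 ≤ h + κ * (n : ℤ)) ∧ ∀ p : ℕ, p.Prime → ∃ n ∈ Pal b N d e, ¬ (p : ℤ) ∣ h + κ * (n : ℤ)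

/-- the number of the representations of `m` as a sum of a prime and a palindrome with `2 N + 1` digits in base `b` -/
def reps (b N m : ℕ) : ℕ := ((Ico (b ^ (2 * N)) (b ^ (2 * N + 1))).filter (fun n =>
  (Nat.digits b n).reverse = Nat.digits b n ∧ (m - n).Prime)).card

open Classical in
/-- (1) Let `b ≥ 2`, `κ ≠ 0`, `A`, `B` and `ε > 0`. For all large `N`, all `1 ≤ d < b` and `e < b`, and all the integers
`h` with `|h| ≤ B b ^ (2 N + 1)`, up to at most `b ^ (2 N) / N ^ A` of them: if all `κ n + h`, `n ∈ Pal b N d e`, are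
positive and no prime divides all of them, then `κ n + h` is a prime for `(1 + O(ε)) expected b N κ` of the
`n ∈ Pal b N d e` (which are `b ^ (N - 1)` numbers).
(2) Let `b ≥ 3`, `A` and `ε > 0`. For all large `N`, all the integers `m` with `b ^ (2 N + 1) ≤ m < b ^ (2 N + 3)`, up to
at most `b ^ (2 N) / N ^ A` of them, have at least `(1 - ε) b ^ (N - 1) / log (b ^ (2 N))` representations as a sum of a
prime and a palindrome with `2 N + 1` digits in base `b`. -/
theorem result :
    (∀ b : ℕ, 2 ≤ b → ∀ κ : ℤ, κ ≠ 0 → ∀ A B : ℕ, ∀ ε : ℝ, 0 < ε → ∃ N₀ : ℕ, ∀ N d e : ℕ, N₀ ≤ N → 1 ≤ d → d < b → e < b →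
      (Pal b N d e).card = b ^ (N - 1) ∧
      (((Icc (-(B * (b : ℤ) ^ (2 * N + 1))) (B * (b : ℤ) ^ (2 * N + 1))).filter (fun h : ℤ => Admissible b N d e κ h ∧
        ¬ |(primeCount b N d e κ h : ℝ) - expected b N κ| ≤ ε * expected b N κ)).card : ℝ) ≤
        (b : ℝ) ^ (2 * N) / (N : ℝ) ^ A) ∧
    (∀ b : ℕ, 3 ≤ b → ∀ A : ℕ, ∀ ε : ℝ, 0 < ε → ∃ N₀ : ℕ, ∀ N : ℕ, N₀ ≤ N →
      (((Ico (b ^ (2 * N + 1)) (b ^ (2 * N + 3))).filter (fun m =>
        (reps b N m : ℝ) < (1 - ε) * ((b : ℝ) ^ (N - 1) / (2 * N * Real.log b)))).card : ℝ) ≤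
        (b : ℝ) ^ (2 * N) / (N : ℝ) ^ A) := by
  constructor
  · intro b hb κ hκ A B ε hε
    obtain ⟨N0, h0⟩ := Pool.Agent.X26.AN.shift_final hb κ hκ A B ε hε
    refine ⟨N0 + 1, ?_⟩
    intro N d e hN hd hdb he
    constructor
    · have h1 := Pool.Agent.X26.AN.PalD_eq (e := e) (L := N - 1) hb hd (show N = N - 1 + 1 by omega)
      obtain ⟨hx1, hx2⟩ := Pool.Agent.X26.AN.x_ok (N := N) hb hd hdb
      have h2 : Pal b N d e = Pool.Agent.X26.AN.PalD b N d e := rfl
      rw [h2, h1]
      have h3 : N - 1 + 1 = N := by omega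
      exact Pool.Agent.X26.AN.card_PalS hb (by rw [h3]; exact hx1) (by rw [h3]; exact hx2) he
    · apply h0 N d e (by omega) hd hdb he _ (filter_subset _ _)
      intro h hh
      rw [mem_filter] at hh
      obtain ⟨-, ⟨h1, h2⟩, h3⟩ := hh
      exact ⟨h1, h2, not_le.1 h3⟩
  · intro b hb A ε hε
    exact Pool.Agent.X26.AN.sums_final hb A ε hε

end Pool.Agent.Results.MP_e8d2ce_nt.AlmostAllShifts
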