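import Pool.Agent.X37.PL.Set

/-!
# MP_e8d2ce_nt: the fundamental lemma of the sieve for palindromes

Asymptotic formula for the number of the base-`b` palindromes with prescribed outer digits and prescribed middle
digit, in a residue class modulo `M ≤ exp (c √L)`, which avoid a set `Ω p` of at most `κ` residue classes modulo
every prime `p ≤ b ^ (u L)` not dividing `2 b M`, where `L` is the number of free digits. For `Ω p = {0}` these are
the palindromes without prime factors `p ≤ b ^ (u L)` (apart from the prime factors of `2 b M`).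

The level of distribution (bounds for the exponential sums over palindromes) is from the starting files; it is used
here in the form of an exponentially small average with power weights, and combined with the fundamental lemma
(Brun-Hooley sieve) of the starting files.
-/

set_option autoImplicit false

namespace Pool.Agent.Results.MP_e8d2ce_nt.FundamentalLemma

open Finset

/-- the base-`b` palindromes with `2 N + 1` digits whose `N - L` leading digits are those of `x` and whose middle
digit is `e` -/
def Pal (b N L x e : ℕ) : Finset ℕ := (range (b ^ (2 * N + 1))).filter (fun n => b ^ (2 * N) ≤ n ∧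
  (Nat.digits b n).reverse = Nat.digits b n ∧ n / b ^ (N + L + 1) = x / b ^ (N + L + 1) ∧ n / b ^ N % b = e)

/-- the primes up to `z` that do not divide `2 b M` -/
def Primes (b M z : ℕ) : Finset ℕ := (Icc 1 z).filter (fun p => p.Prime ∧ ¬ p ∣ 2 * b * M)

theorem result (b : ℕ) (hb : 2 ≤ b) (κ : ℕ) (η : ℝ) (hη : 0 < η) :
    ∃ u c : ℝ, 0 < u ∧ 0 < c ∧ ∃ L₀ : ℕ, ∀ L N x e : ℕ, L₀ ≤ L → L < N → b ^ (2 * N) ≤ x → x < b ^ (2 * N + 1) →
      e < b → ∀ M r : ℕ, 0 < M → M.Coprime (2 * b) → (M : ℝ) ≤ Real.exp (c * Real.sqrt L) →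
      ∀ Ω : ℕ → Finset ℕ, (∀ p : ℕ, p.Prime → ¬ p ∣ 2 * b → Ω p ⊆ range p ∧ (Ω p).card ≤ κ ∧ (Ω p).card < p) →
      ∀ z : ℕ, (z : ℝ) ≤ (b : ℝ) ^ (u * L) →
        |(((Pal b N L x e).filter (fun n => n % M = r % M ∧ ∀ p ∈ Primes b M z, n % p ∉ Ω p)).card : ℝ) -
          (b : ℝ) ^ L / M * ∏ p ∈ Primes b M z, (1 - ((Ω p).card : ℝ) / p)| ≤
        η * ((b : ℝ) ^ L / M * ∏ p ∈ Primes b M z, (1 - ((Ω p).card : ℝ) / p)) :=
  Pool.Agent.X37.PL.fund_pal hb κ η hη

end Pool.Agent.Results.MP_e8d2ce_nt.FundamentalLemma
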