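import Pool.Agent.X220.PD.Sys

/-!
# Palindromes with prescribed values of digital functions: almost primes and primes, every base

Let `b ≥ 2`, let `G` be a finite abelian group and `g : ℕ → G`. For a palindrome `n` with `2 N + 1` base-`b` digits let
`half b g N n` be the sum of the `g(d)` over the `N` digits `d` to the right of the middle digit (equivalently, to the left).
For example, for `G = ℤ/m` and `g(d) = d` the digit sum of `n` is congruent to `2 half + e` modulo `m`, where `e` is the middle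
digit; for `g(d) = 1` if `d = j`, and `0` otherwise, one gets the number of the digits `j` modulo `m`.

The condition `Spread`: no nontrivial character of `G` is, on the digits, a constant multiple of `ζ ^ d`, where
`ζ ^ ((b - 1) ^ 2) = 1`. It holds for `g(d) = d` modulo `m` if `m` is coprime to `b - 1`. (If it does not hold, then the values
of the digital function may be correlated with the residue classes modulo the divisors of `(b - 1) ^ 2`.)

We consider the palindromes `n` with `2 N + 1` digits whose `N - L` leading digits, whose middle digit `e` and whose value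
`half b g N n` are prescribed. If the leading digit is coprime to `b`, and `e` is odd in case `b` is odd, then the number of
these `n` with at most `r N / L` prime factors, all of them greater than `b ^ (L / K)`, has the expected order of magnitude
`b ^ L / L`; this is also an upper bound for the number of the primes; and the number of the `n` without prime factors up to
`y ≤ b ^ (L / K)` is given by an asymptotic formula.
-/

set_option autoImplicit false

namespace Pool.Agent.Results.MP_e8d2ce_nt.PrescribedDigitSums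

open Finset Polynomial

/-- the sum of the `g(d)` over the `N` least significant digits `d` -/
def half {G : Type} [AddCommGroup G] (b : ℕ) (g : ℕ → G) (N n : ℕ) : G := ∑ i ∈ range N, g (n / b ^ i % b)

/-- no nontrivial character is on the digits a constant multiple of `ζ ^ d` with `ζ ^ ((b - 1) ^ 2) = 1` -/
def Spread {G : Type} [AddCommGroup G] (b : ℕ) (g : ℕ → G) : Prop :=
  ∀ χ : AddChar G ℂ, χ ≠ 0 → ∀ ζ : ℂ, ζ ^ ((b - 1) ^ 2) = 1 → ∃ d < b, χ (g d) ≠ χ (g 0) * ζ ^ d

/-- `n` is a palindrome with at most `2 N + 1` base-`b` digits, whose `N - L` leading digits are those of `x` (a number with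
`2 N + 1` digits), whose middle digit is `e` and for which the digital function has the value `g₀` -/
def Pal {G : Type} [AddCommGroup G] (b N L x e : ℕ) (g : ℕ → G) (g₀ : G) (n : ℕ) : Prop :=
  n < b ^ (2 * N + 1) ∧ (Nat.digits b n).reverse = Nat.digits b n ∧ n / b ^ (N + L + 1) = x / b ^ (N + L + 1) ∧
    n / b ^ N % b = e ∧ half b g N n = g₀

/-- the product over the primes `q ≤ y` which do not divide `2 b` of `1 - 1 / q` -/
noncomputable def V (b y : ℕ) : ℝ := ∏ q ∈ (Icc 1 y).filter (fun q => q.Prime ∧ ¬ q ∣ 2 * b), (1 - 1 / (q : ℝ))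

/-- the leading digit of `x` is coprime to `b`, and `e` is odd if `b` is odd -/
def Good (b N x e : ℕ) : Prop := (x / b ^ (2 * N)).Coprime b ∧ (Odd b → Odd e)

lemma card_eq {G : Type} [AddCommGroup G] [DecidableEq G] (b N L x e : ℕ) (g : ℕ → G) (g₀ : G) (P : ℕ → Prop)
    [DecidablePred P] : Set.ncard {n : ℕ | Pal b N L x e g g₀ n ∧ P n} =
      ((Pool.Agent.X220.PD.Pals b N L x e g g₀).filter P).card := by
  rw [← Set.ncard_coe_finset]
  congr 1
  ext n
  simp only [Set.mem_ofPred_eq, coe_filter, Pool.Agent.X220.PD.Pals, Pal, mem_filter, mem_range]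
  exact Iff.rfl

lemma sysX : Pool.Agent.X55.Fam.Sys 1 (fun _ => (X : ℤ[X])) := by
  refine ⟨fun _ => irreducible_X, fun _ => by rw [natDegree_X]; exact one_pos, fun i j hij => ?_, fun p hp => ?_⟩
  · exact absurd (Subsingleton.elim i j) hij
  · refine ⟨1, fun _ h => ?_⟩
    rw [eval_X] at h
    have : p ∣ 1 := by exact_mod_cast h
    exact hp.one_lt.ne' (Nat.dvd_one.1 this)

lemma loc {b N x e : ℕ} (h : Good b N x e) : Pool.Agent.X220.PD.Loc b N x e (fun _ : Fin 1 => (X : ℤ[X])) := by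
  refine ⟨fun p hp hpb _ hd => ?_, fun h2 _ hd => ?_⟩
  · rw [eval_X] at hd
    have h3 : p ∣ x / b ^ (2 * N) := by exact_mod_cast hd
    have := Nat.dvd_gcd h3 hpb
    rw [Nat.Coprime.gcd_eq_one h.1] at this
    exact hp.one_lt.ne' (Nat.dvd_one.1 this)
  · rw [eval_X] at hd
    have h3 : 2 ∣ e := by exact_mod_cast hd
    have h4 : Odd b := by
      rw [← Nat.not_even_iff_odd, even_iff_two_dvd]
      exact h2
    have h5 := h.2 h4
    rw [← Nat.not_even_iff_odd, even_iff_two_dvd] at h5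
    exact h5 h3

lemma V_eq (b y : ℕ) :
    Pool.Agent.X55.Fam.VQ (Pool.Agent.X220.PD.Qb b (fun _ : Fin 1 => (X : ℤ[X]))) y = V b y := by
  classical
  have h1 : (Icc 1 y).filter (fun q => q.Prime ∧ ¬ q ∣ 2 * b) =
      (Pool.Agent.H373R2.T7.pz y).filter (fun p => ¬ p ∣ 2 * b) := by
    ext q
    rw [mem_filter, mem_filter, mem_Icc, Pool.Agent.H373R2.T7.mem_pz]
    constructor
    · rintro ⟨⟨_, h2⟩, h3, h4⟩
      exact ⟨⟨h2, h3⟩, h4⟩
    · rintro ⟨⟨h2, h3⟩, h4⟩
      exact ⟨⟨h3.one_le, h2⟩, h3, h4⟩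
  unfold V Pool.Agent.X55.Fam.VQ
  rw [h1, prod_filter]
  apply prod_congr rfl
  intro p hp
  rw [Pool.Agent.X220.PD.nu_Qb]
  by_cases hpb : p ∣ 2 * b
  · rw [if_pos hpb, if_neg (not_not.2 hpb)]
    simp
  · rw [if_neg hpb, if_pos hpb]
    have hp' := (Pool.Agent.H373R2.T7.mem_pz.1 hp).2
    have h2 : Pool.Agent.H373R2.T7.nuB (Pool.Agent.X55.Fam.QQ (fun _ : Fin 1 => (X : ℤ[X]))) p = 1 := by
      unfold Pool.Agent.H373R2.T7.nuB
      rw [card_eq_one]
      refine ⟨0, ?_⟩
      ext a
      rw [mem_filter, mem_range, mem_singleton]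
      unfold Pool.Agent.X55.Fam.QQ
      constructor
      · rintro ⟨h4, i, h5⟩
        rw [eval_X] at h5
        have h6 : p ∣ a := by exact_mod_cast h5
        exact Nat.eq_zero_of_dvd_of_lt h6 h4
      · rintro rfl
        refine ⟨hp'.pos, 0, ?_⟩
        rw [eval_X]
        simp
    rw [h2, Nat.cast_one]

lemma spread_digits (b : ℕ) (hb : 2 ≤ b) (m : ℕ) [NeZero m] (h : m.Coprime (b - 1)) :
    Spread b (fun d => (d : ZMod m)) := by
  intro χ hχ ζ hζ
  by_contra hcon
  push Not at hcon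
  apply hχ
  have h1 := hcon 1 (by omega)
  rw [pow_one, Nat.cast_zero, AddChar.map_zero_eq_one, one_mul, Nat.cast_one] at h1
  have h2 : ζ ^ m = 1 := by
    rw [← h1, ← AddChar.map_nsmul_eq_pow]
    have : (m • (1 : ZMod m)) = 0 := by simp
    rw [this, AddChar.map_zero_eq_one]
  have h3 : ζ = 1 := by
    have h4 : orderOf ζ ∣ m := orderOf_dvd_of_pow_eq_one h2
    have h5 : orderOf ζ ∣ (b - 1) ^ 2 := orderOf_dvd_of_pow_eq_one hζ
    have h6 : orderOf ζ ∣ 1 := by
      have := Nat.dvd_gcd h4 h5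
      rwa [Nat.Coprime.gcd_eq_one (Nat.Coprime.pow_right 2 h)] at this
    rw [← orderOf_eq_one_iff]
    exact Nat.dvd_one.1 h6
  ext x
  have h7 : (x : ZMod m) = (x.val : ℕ) • (1 : ZMod m) := by simp
  rw [h7, AddChar.map_nsmul_eq_pow, h1, h3, one_pow]
  simp

theorem result (b : ℕ) (hb : 2 ≤ b) :
    (∀ (G : Type) [AddCommGroup G] [Fintype G] [DecidableEq G] (g : ℕ → G), Spread b g →
      (∃ (r K L₀ : ℕ) (c C : ℝ), 1 ≤ K ∧ 0 < c ∧ 0 < C ∧ ∀ L N x e : ℕ, L₀ ≤ L → L < N →
        b ^ (2 * N) ≤ x → x < b ^ (2 * N + 1) → e < b → ∀ g₀ : G,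
        (Good b N x e → c * (b : ℝ) ^ L / L ≤ Set.ncard {n : ℕ | Pal b N L x e g g₀ n ∧
          n.primeFactorsList.length * L ≤ r * N ∧ ∀ p : ℕ, p.Prime → p ∣ n → b ^ L < p ^ K}) ∧
        (Set.ncard {n : ℕ | Pal b N L x e g g₀ n ∧ n.Prime} : ℝ) ≤ C * (b : ℝ) ^ L / L) ∧
      (∀ ε : ℝ, 0 < ε → ∃ K L₀ : ℕ, 1 ≤ K ∧ ∀ L N x e : ℕ, L₀ ≤ L → L < N →
        b ^ (2 * N) ≤ x → x < b ^ (2 * N + 1) → e < b → Good b N x e → ∀ g₀ : G, ∀ y : ℕ, 3 ≤ y → y ^ K ≤ b ^ L →
        |(Set.ncard {n : ℕ | Pal b N L x e g g₀ n ∧ ∀ q : ℕ, q.Prime → q ≤ y → ¬ q ∣ n} : ℝ) -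
          (b : ℝ) ^ L / Fintype.card G * V b y| ≤ ε * ((b : ℝ) ^ L / Fintype.card G * V b y))) ∧
    (∀ (m : ℕ) [NeZero m], m.Coprime (b - 1) → Spread b (fun d => (d : ZMod m))) := by
  classical
  refine ⟨fun G _ _ _ g hg => ?_, fun m _ h => spread_digits b hb m h⟩
  have hg' : Pool.Agent.X220.PD.Spr b g := hg
  constructor
  · obtain ⟨r, K, L₀, c, C, hK, hc, hC, hbd⟩ := Pool.Agent.X220.PD.sys_bounds hb g hg' sysX
    refine ⟨r, K, L₀, c, C, hK, hc, hC, fun L N x e hL hN h0 hx he g₀ => ?_⟩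
    obtain ⟨h1, h2⟩ := hbd L hL N x e hN h0 hx he g₀
    rw [pow_one] at h1 h2
    constructor
    · intro hgood
      refine (h1 (loc hgood)).trans ?_
      rw [card_eq]
      have h3 : ∀ n : ℕ, (∀ _i : Fin 1, ((X : ℤ[X]).eval (n : ℤ)).natAbs ≠ 0 ∧
          ((X : ℤ[X]).eval (n : ℤ)).natAbs.primeFactorsList.length * L ≤ r * N ∧
          ∀ p : ℕ, p.Prime → p ∣ ((X : ℤ[X]).eval (n : ℤ)).natAbs → b ^ L < p ^ K) →
          (n.primeFactorsList.length * L ≤ r * N ∧ ∀ p : ℕ, p.Prime → p ∣ n → b ^ L < p ^ K) := by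
        intro n hn
        have h4 := hn 0
        rw [eval_X, Int.natAbs_natCast] at h4
        exact h4.2
      rw [Nat.cast_le]
      apply card_le_card
      intro n hn
      rw [mem_filter] at hn ⊢
      exact ⟨hn.1, h3 n hn.2⟩
    · refine le_trans ?_ h2
      rw [card_eq, Nat.cast_le]
      apply card_le_card
      intro n hn
      rw [mem_filter] at hn ⊢
      refine ⟨hn.1, fun _ => ?_⟩
      rw [eval_X, Int.natAbs_natCast]
      exact hn.2
  · intro ε hε
    obtain ⟨K, L₀, hK, hbd⟩ := Pool.Agent.X220.PD.sys_asym hb g hg' sysX ε hε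
    refine ⟨K, L₀, hK, fun L N x e hL hN h0 hx he hgood g₀ y hy hyK => ?_⟩
    have h1 := hbd L hL N x e hN h0 hx he (loc hgood) g₀ y hy hyK
    rw [V_eq] at h1
    rw [card_eq]
    have h2 : (Pool.Agent.X220.PD.Pals b N L x e g g₀).filter (fun n : ℕ => ∀ q : ℕ, q.Prime → q ≤ y → ¬ q ∣ n) =
        (Pool.Agent.X220.PD.Pals b N L x e g g₀).filter (fun n : ℕ => ∀ q : ℕ, q.Prime → q ≤ y → ∀ _i : Fin 1,
          ¬ (q : ℤ) ∣ (X : ℤ[X]).eval (n : ℤ)) := by
      apply filter_congr
      intro n _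
      refine forall_congr' fun q => forall_congr' fun _ => forall_congr' fun _ => ?_
      constructor
      · intro h _ hd
        rw [eval_X] at hd
        exact h (by exact_mod_cast hd)
      · intro h hd
        apply h 0
        rw [eval_X]
        exact_mod_cast hd
    rw [h2]
    exact h1

end Pool.Agent.Results.MP_e8d2ce_nt.PrescribedDigitSums
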