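import Mathlib
import Pool.Agent.X262.PAL.RD2

/-!
Palindromes with few prime factors in residue classes, in every base `b ≥ 2`, in the right order of magnitude and with
the right dependence on the modulus: for every `M` coprime to `2 b`, every class `a` modulo `M` with `a` coprime to `M`
and all large `x`, at least `(c / φ(M)) #P_b(x) / log x` of the base-`b` palindromes up to `x` lie in the class and have at
most `k` prime factors, where `k = 3` for `b ≥ 1000`, `k = 4` for `64 ≤ b < 1000` and `k = 5` for `b < 64`; here `c`
depends only on `b`.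
-/

set_option autoImplicit false

namespace Pool.Agent.Results.MP_e8d2ce_nt.ResidueClasses

open Finset Filter

/-- Let `b ≥ 2`, and `k = 3` for `b ≥ 1000`, `k = 4` for `64 ≤ b < 1000`, `k = 5` for `b < 64`.  There is
`c > 0` such that for every `M` coprime to `2 b` and all large `x` the following holds for every `a` coprime to `M`: if `P`
is the number of base-`b` palindromes `n ≤ x`, then at least `(c / φ(M)) P / log x` of them satisfy `n ≡ a (mod M)` and have
at most `k` prime factors counted with multiplicity, all of them larger than `x^(1/30)`. -/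
theorem result (b : ℕ) (hb : 2 ≤ b) : ∃ c : ℝ, 0 < c ∧ ∀ M : ℕ, M.Coprime (2 * b) →
    ∀ᶠ x : ℕ in atTop, ∀ a : ℕ, a.Coprime M →
      c / M.totient * (((Icc 1 x).filter (fun n => (Nat.digits b n).reverse = Nat.digits b n)).card : ℝ) /
        Real.log x ≤
      (((Icc 1 x).filter (fun n => (Nat.digits b n).reverse = Nat.digits b n ∧ n ≡ a [MOD M] ∧
        n.primeFactorsList.length ≤ (if 1000 ≤ b then 3 else if 64 ≤ b then 4 else 5) ∧
        ∀ p ∈ n.primeFactorsList, (x : ℝ) ^ (1 / 30 : ℝ) < p)).card : ℝ) := by
  classical
  obtain ⟨c, hc0, hc⟩ := Pool.Agent.X262.PAL.finUD hb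
  have hb0 : (0 : ℝ) < b := by exact_mod_cast (by omega : 0 < b)
  have hlb : 0 < Real.log b := Real.log_pos (by exact_mod_cast (by omega : 1 < b))
  refine ⟨c * Real.log b / (4 * b ^ 2), by positivity, ?_⟩
  intro M hM
  have hM0 : 0 < M := by
    rcases Nat.eq_zero_or_pos M with h | h
    · subst h
      rw [Nat.coprime_zero_left] at hM
      omega
    · exact h
  have hφ : (0 : ℝ) < M.totient := by exact_mod_cast Nat.totient_pos.2 hM0
  have h := Pool.Agent.X262.PAL.to_xD (M := M) hb (c := c / M.totient) (by positivity) (hc M hM0 hM)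
  filter_upwards [h] with x hx
  intro a ha
  have hx1 := hx a ha
  have e : c * Real.log b / (4 * b ^ 2) / M.totient = c / M.totient * Real.log b / (4 * b ^ 2) := by
    ring
  rw [e]
  refine le_trans (le_of_eq ?_) (hx1.trans (le_of_eq ?_))
  · congr 2
  · congr 1
    refine congrArg _ ?_
    ext n
    simp only [mem_filter]
    tauto

end Pool.Agent.Results.MP_e8d2ce_nt.ResidueClasses
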